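import Mathlib

set_option autoImplicit false
set_option linter.unusedSectionVars false

/-!
# There are no symmetric linear `(2, q, q)`-all-or-nothing transforms in standard form, `q > 5` odd

Let `M` be such a matrix over a field with `q` elements. If the last diagonal entry is not `0`, a
suitable scaling of the rows gives, in every column, `q - 2` nonzero entries no two of which are
equal or opposite, which is impossible. If the diagonal is `0`, scaling rows and columns by the
products of the rows gives a symmetric matrix `N` such that the quotients of two rows take all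
nonzero values except `-1`. Double counting shows that all rows of `N` have the same entries, each
element `u` occurring `r u ∈ {0, 2}` times, where `f = r - 1` satisfies `f (-u) = -f u` and
`∑ f u * f (t u) = 0` for `t ≠ ±1`. Along the powers of a primitive element this is a sequence of
signs `F` with `F (k + n) = - F k`, `n = (q - 1) / 2`, and vanishing correlations; then `4 ∣ n`, and
the number of sign changes in a period, which is `n / 2`, would be odd.
-/

namespace Pool.Agent.Results.MP_e1f2d0_co.NoSymmetric

open Finset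

/-! ## Sequences -/

theorem sum_mod_four (x : ℕ → ℤ) (hx : ∀ k, x k = 1 ∨ x k = -1) (m : ℕ) :
    (4 : ℤ) ∣ (∑ k ∈ range m, x k) - (m + ∏ k ∈ range m, x k - 1) := by
  have hP : ∀ m : ℕ, ∏ k ∈ range m, x k = 1 ∨ ∏ k ∈ range m, x k = -1 := by
    intro m
    induction m with
    | zero => simp
    | succ m ih =>
      rw [Finset.prod_range_succ]
      rcases ih with h | h <;> rcases hx m with h' | h' <;> rw [h, h'] <;> simp
  induction m with
  | zero => simp
  | succ m ih =>
    rw [Finset.sum_range_succ, Finset.prod_range_succ]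
    push_cast
    obtain ⟨c, hc⟩ := ih
    rcases hP m with h | h <;> rcases hx m with h' | h' <;> rw [h] at hc ⊢ <;> rw [h']
    · exact ⟨c, by linarith⟩
    · exact ⟨c, by linarith⟩
    · exact ⟨c, by linarith⟩
    · exact ⟨c - 1, by linarith⟩

theorem no_seq (n : ℕ) (F : ℕ → ℤ) (h1 : ∀ k, F k = 1 ∨ F k = -1)
    (h2 : ∀ k, F (k + n) = - F k)
    (h3 : ∑ k ∈ range (n + n), F k * F (k + 1) = 0)
    (h4 : ∑ k ∈ range (n + n), F k * F (k + 2) = 0) : False := by
  have half : ∀ s, ∑ k ∈ range (n + n), F k * F (k + s) = 2 * ∑ k ∈ range n, F k * F (k + s) := by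
    intro s
    rw [Finset.sum_range_add]
    have : ∑ k ∈ range n, F (n + k) * F (n + k + s) = ∑ k ∈ range n, F k * F (k + s) := by
      apply Finset.sum_congr rfl
      intro k _
      rw [show n + k = k + n by ring, show k + n + s = k + s + n by ring, h2, h2]
      ring
    rw [this]
    ring
  have e1 : ∑ k ∈ range n, F k * F (k + 1) = 0 := by
    have := half 1
    omega
  have e2 : ∑ k ∈ range n, F k * F (k + 2) = 0 := by
    have := half 2
    omega
  have e3 : ∑ k ∈ range n, F (k + 1) * F (k + 2) = 0 := by
    have h5 := Finset.sum_range_succ' (fun k => F k * F (k + 1)) n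
    have h6 := Finset.sum_range_succ (fun k => F k * F (k + 1)) n
    rw [h6, e1] at h5
    have h7 : F n * F (n + 1) = F 0 * F (0 + 1) := by
      have h8 := h2 0
      have h9 := h2 1
      rw [show 0 + n = n by ring] at h8
      rw [show 1 + n = n + 1 by ring] at h9
      rw [h8, h9, zero_add]
      ring
    rw [h7] at h5
    have h10 : ∑ k ∈ range n, F (k + 1) * F (k + 1 + 1) = 0 := by linarith
    exact h10
  -- `4 ∣ n`
  have f1 : (4 : ℤ) ∣ n := by
    have h5 : ∑ k ∈ range n, (1 + F k * F (k + 1)) * (1 + F k * F (k + 2)) = n := by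
      have h6 : ∀ k ∈ range n, (1 + F k * F (k + 1)) * (1 + F k * F (k + 2)) =
          1 + F k * F (k + 1) + F k * F (k + 2) + F (k + 1) * F (k + 2) := by
        intro k _
        have h7 : F k * F k = 1 := by rcases h1 k with h | h <;> rw [h] <;> rfl
        linear_combination F (k + 1) * F (k + 2) * h7
      rw [Finset.sum_congr rfl h6, Finset.sum_add_distrib, Finset.sum_add_distrib,
        Finset.sum_add_distrib, e1, e2, e3]
      simp
    rw [← h5]
    apply Finset.dvd_sum
    intro k _
    rcases h1 k with h | h <;> rcases h1 (k + 1) with h' | h' <;> rcases h1 (k + 2) with h'' | h'' <;>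
      rw [h, h', h''] <;> norm_num
  -- the number of sign changes
  have f2 : ∀ m, ∏ k ∈ range m, F k * F (k + 1) = F 0 * F m := by
    intro m
    induction m with
    | zero => rcases h1 0 with h | h <;> simp [h]
    | succ m ih =>
      rw [Finset.prod_range_succ, ih]
      have h7 : F m * F m = 1 := by rcases h1 m with h | h <;> rw [h] <;> rfl
      linear_combination F 0 * F (m + 1) * h7
  have f3 : ∏ k ∈ range n, F k * F (k + 1) = -1 := by
    rw [f2]
    have h8 := h2 0
    rw [show 0 + n = n by ring] at h8
    rw [h8]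
    rcases h1 0 with h | h <;> rw [h] <;> rfl
  have f4 := sum_mod_four (fun k => F k * F (k + 1)) (fun k => by
    rcases h1 k with h | h <;> rcases h1 (k + 1) with h' | h' <;> simp [h, h']) n
  rw [e1, f3] at f4
  omega

/-! ## Double counting -/

section counting

variable {ι K : Type} [Fintype ι] [DecidableEq ι] [Field K] [Fintype K] [DecidableEq K]

/-- the normalised matrix -/
structure Good (N : ι → ι → K) : Prop where
  diag : ∀ i, N i i = 0
  nz : ∀ i j, i ≠ j → N i j ≠ 0
  symm : ∀ i j, N i j = N j i
  cnt : ∀ i k, i ≠ k → ∀ t : K, t ≠ 0 →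
    (univ.filter fun j => j ≠ i ∧ j ≠ k ∧ N i j = t * N k j).card = if t = -1 then 0 else 1

/-- number of entries `u` in row `i` -/
def r (N : ι → ι → K) (i : ι) (u : K) : ℕ := (univ.filter fun j => N i j = u).card

theorem r_eq {N : ι → ι → K} (h : Good N) (i l : ι) (u : K) (hu : u ≠ 0) : r N i u = r N l u := by
  by_cases hil : i = l
  · rw [hil]
  obtain ⟨χ, hχ⟩ : ∃ χ : ι → ι → ℕ, χ = fun j k =>
    if (j ≠ i ∧ j ≠ k ∧ k ≠ l ∧ N i j * N k l = (-u) * N k j) then 1 else 0 := ⟨_, rfl⟩
  obtain ⟨D, hD⟩ : ∃ D : ℕ, D = if N i l = -u then Fintype.card ι - 1 else 0 := ⟨_, rfl⟩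
  have hA : ∀ k, ∑ j, χ j k + (if k ≠ l ∧ k ≠ i ∧ N k l = u then 1 else 0) =
      if k = l then 0 else if k = i then D else 1 := by
    intro k
    rw [hχ]
    dsimp only
    by_cases h1 : k = l
    · subst h1
      simp
    by_cases h2 : k = i
    · subst h2
      rw [if_neg (fun h3 => h3.2.1 rfl), add_zero, if_neg h1, if_pos rfl, hD]
      rw [← Finset.sum_filter_add_sum_filter_not univ (fun j => j = k)]
      have h3 : ∀ j ∈ univ.filter (fun j => j = k), (if (j ≠ k ∧ j ≠ k ∧ k ≠ l ∧
          N k j * N k l = (-u) * N k j) then 1 else 0) = 0 := by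
        intro j hj
        rw [Finset.mem_filter] at hj
        rw [if_neg (fun h4 => h4.1 hj.2)]
      have h5 : ∀ j ∈ univ.filter (fun j => ¬ j = k), (if (j ≠ k ∧ j ≠ k ∧ k ≠ l ∧
          N k j * N k l = (-u) * N k j) then 1 else 0) = if N k l = -u then 1 else 0 := by
        intro j hj
        rw [Finset.mem_filter] at hj
        have h6 := h.nz k j (fun h7 => hj.2 h7.symm)
        congr 1
        apply propext
        constructor
        · rintro ⟨-, -, -, h7⟩
          rw [mul_comm (-u)] at h7
          exact mul_left_cancel₀ h6 h7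
        · intro h7
          exact ⟨hj.2, hj.2, h1, by rw [h7, mul_comm]⟩
      rw [Finset.sum_congr rfl h3, Finset.sum_congr rfl h5, Finset.sum_const_zero, zero_add,
        Finset.sum_const, Finset.filter_ne', Finset.card_erase_of_mem (Finset.mem_univ _),
        Finset.card_univ]
      split_ifs <;> simp
    · rw [if_neg h1, if_neg h2]
      have h3 := h.nz k l h1
      have h4 := h.cnt i k (fun h5 => h2 h5.symm) (-u / N k l) (div_ne_zero (neg_ne_zero.2 hu) h3)
      have h5 : ∑ j, (if (j ≠ i ∧ j ≠ k ∧ k ≠ l ∧ N i j * N k l = (-u) * N k j) then 1 else 0) =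
          (univ.filter fun j => j ≠ i ∧ j ≠ k ∧ N i j = -u / N k l * N k j).card := by
        rw [Finset.card_filter]
        apply Finset.sum_congr rfl
        intro j _
        congr 1
        apply propext
        constructor
        · rintro ⟨h6, h7, -, h8⟩
          refine ⟨h6, h7, ?_⟩
          field_simp
          linear_combination h8
        · rintro ⟨h6, h7, h8⟩
          refine ⟨h6, h7, h1, ?_⟩
          rw [h8]
          field_simp
      rw [h5, h4]
      have h6 : (-u / N k l = -1) ↔ (k ≠ l ∧ k ≠ i ∧ N k l = u) := by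
        rw [div_eq_iff h3]
        constructor
        · intro h7
          exact ⟨h1, h2, by linear_combination h7⟩
        · rintro ⟨-, -, h7⟩
          rw [h7]
          ring
      simp only [h6]
      split_ifs <;> rfl
  have hB : ∀ j, ∑ k, χ j k + (if j ≠ i ∧ j ≠ l ∧ N i j = u then 1 else 0) =
      if j = i then 0 else if j = l then D else 1 := by
    intro j
    rw [hχ]
    dsimp only
    by_cases h1 : j = i
    · subst h1
      simp
    by_cases h2 : j = l
    · subst h2
      rw [if_neg (fun h3 => h3.2.1 rfl), add_zero, if_neg h1, if_pos rfl, hD]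
      rw [← Finset.sum_filter_add_sum_filter_not univ (fun k => k = j)]
      have h3 : ∀ k ∈ univ.filter (fun k => k = j), (if (j ≠ i ∧ j ≠ k ∧ k ≠ j ∧
          N i j * N k j = (-u) * N k j) then 1 else 0) = 0 := by
        intro k hk
        rw [Finset.mem_filter] at hk
        rw [if_neg (fun h4 => h4.2.2.1 hk.2)]
      have h5 : ∀ k ∈ univ.filter (fun k => ¬ k = j), (if (j ≠ i ∧ j ≠ k ∧ k ≠ j ∧
          N i j * N k j = (-u) * N k j) then 1 else 0) = if N i j = -u then 1 else 0 := by
        intro k hk
        rw [Finset.mem_filter] at hk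
        have h6 := h.nz k j hk.2
        congr 1
        apply propext
        constructor
        · rintro ⟨-, -, -, h7⟩
          exact mul_right_cancel₀ h6 h7
        · intro h7
          exact ⟨h1, fun h8 => hk.2 h8.symm, hk.2, by rw [h7]⟩
      rw [Finset.sum_congr rfl h3, Finset.sum_congr rfl h5, Finset.sum_const_zero, zero_add,
        Finset.sum_const, Finset.filter_ne', Finset.card_erase_of_mem (Finset.mem_univ _),
        Finset.card_univ]
      split_ifs <;> simp
    · rw [if_neg h1, if_neg h2]
      have h3 := h.nz i j (fun h5 => h1 h5.symm)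
      have h4 := h.cnt l j (fun h5 => h2 h5.symm) (-u / N i j) (div_ne_zero (neg_ne_zero.2 hu) h3)
      have h5 : ∑ k, (if (j ≠ i ∧ j ≠ k ∧ k ≠ l ∧ N i j * N k l = (-u) * N k j) then 1 else 0) =
          (univ.filter fun k => k ≠ l ∧ k ≠ j ∧ N l k = -u / N i j * N j k).card := by
        rw [Finset.card_filter]
        apply Finset.sum_congr rfl
        intro k _
        congr 1
        apply propext
        rw [h.symm l k, h.symm j k]
        constructor
        · rintro ⟨-, h7, h6, h8⟩
          refine ⟨h6, fun h9 => h7 h9.symm, ?_⟩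
          field_simp
          linear_combination h8
        · rintro ⟨h6, h7, h8⟩
          refine ⟨h1, fun h9 => h7 h9.symm, h6, ?_⟩
          rw [h8]
          field_simp
      rw [h5, h4]
      have h6 : (-u / N i j = -1) ↔ (j ≠ i ∧ j ≠ l ∧ N i j = u) := by
        rw [div_eq_iff h3]
        constructor
        · intro h7
          exact ⟨h1, h2, by linear_combination h7⟩
        · rintro ⟨-, -, h7⟩
          rw [h7]
          ring
      simp only [h6]
      split_ifs <;> rfl
  have hsum : ∑ k, (if k ≠ l ∧ k ≠ i ∧ N k l = u then 1 else 0) =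
      ∑ j, (if j ≠ i ∧ j ≠ l ∧ N i j = u then 1 else 0) := by
    have e1 := Finset.sum_congr (rfl : (univ : Finset ι) = univ) (fun k _ => hA k)
    have e2 := Finset.sum_congr (rfl : (univ : Finset ι) = univ) (fun j _ => hB j)
    rw [Finset.sum_add_distrib] at e1 e2
    have e3 : ∑ k, (if k = l then 0 else if k = i then D else 1) =
        ∑ j, (if j = i then 0 else if j = l then D else 1) := by
      rw [← Equiv.sum_comp (Equiv.swap i l)]
      apply Finset.sum_congr rfl
      intro k _
      by_cases h1 : k = i
      · subst h1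
        rw [Equiv.swap_apply_left, if_pos rfl, if_pos rfl]
      by_cases h2 : k = l
      · subst h2
        rw [Equiv.swap_apply_right, if_neg hil, if_pos rfl, if_neg h1, if_pos rfl]
      · rw [Equiv.swap_apply_of_ne_of_ne h1 h2, if_neg h2, if_neg h1, if_neg h1, if_neg h2]
    rw [Finset.sum_comm] at e1
    omega
  have hi : r N i u = ∑ j, (if j ≠ i ∧ j ≠ l ∧ N i j = u then 1 else 0) +
      (if N i l = u then 1 else 0) := by
    unfold r
    rw [Finset.card_filter]
    have e1 : ∀ j ∈ (univ : Finset ι), (if N i j = u then 1 else 0) =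
        (if j ≠ i ∧ j ≠ l ∧ N i j = u then 1 else 0) + if j = l then (if N i l = u then 1 else 0)
          else 0 := by
      intro j _
      by_cases h1 : j = i
      · subst h1
        rw [h.diag, if_neg hu.symm, if_neg (fun h2 => h2.1 rfl), if_neg hil]
      by_cases h2 : j = l
      · subst h2
        rw [if_neg (fun h3 : _ ∧ _ => h3.2.1 rfl), if_pos rfl, zero_add]
      · rw [if_neg h2, add_zero]
        congr 1
        apply propext
        exact ⟨fun h3 => ⟨h1, h2, h3⟩, fun h3 => h3.2.2⟩
    rw [Finset.sum_congr rfl e1, Finset.sum_add_distrib]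
    simp
  have hl : r N l u = ∑ k, (if k ≠ l ∧ k ≠ i ∧ N k l = u then 1 else 0) +
      (if N i l = u then 1 else 0) := by
    unfold r
    rw [Finset.card_filter]
    have e1 : ∀ k ∈ (univ : Finset ι), (if N l k = u then 1 else 0) =
        (if k ≠ l ∧ k ≠ i ∧ N k l = u then 1 else 0) + if k = i then (if N i l = u then 1 else 0)
          else 0 := by
      intro k _
      rw [h.symm l k]
      by_cases h1 : k = l
      · subst h1
        rw [h.diag, if_neg hu.symm, if_neg (fun h2 => h2.1 rfl), if_neg (fun h2 => hil h2.symm)]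
      by_cases h2 : k = i
      · subst h2
        rw [if_neg (fun h3 : _ ∧ _ => h3.2.1 rfl), if_pos rfl, zero_add]
      · rw [if_neg h2, add_zero]
        congr 1
        apply propext
        exact ⟨fun h3 => ⟨h1, h2, h3⟩, fun h3 => h3.2.2⟩
    rw [Finset.sum_congr rfl e1, Finset.sum_add_distrib]
    simp
  rw [hi, hl, hsum]

theorem triple {N : ι → ι → K} (h : Good N) (t : Kˣ) (j k : ι) :
    (∑ l, if (l ≠ j ∧ l ≠ k ∧ N l k = t * N l j) then 1 else 0) =
      if j = k then (if t = 1 then Fintype.card ι - 1 else 0) else (if t = -1 then 0 else 1) := by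
  by_cases h1 : j = k
  · subst h1
    rw [if_pos rfl]
    rw [← Finset.sum_filter_add_sum_filter_not univ (fun l => l = j)]
    have h3 : ∀ l ∈ univ.filter (fun l => l = j), (if (l ≠ j ∧ l ≠ j ∧ N l j = t * N l j) then 1
        else 0) = 0 := by
      intro l hl
      rw [Finset.mem_filter] at hl
      rw [if_neg (fun h4 => h4.1 hl.2)]
    have h5 : ∀ l ∈ univ.filter (fun l => ¬ l = j), (if (l ≠ j ∧ l ≠ j ∧ N l j = t * N l j) then 1
        else 0) = if t = 1 then 1 else 0 := by
      intro l hl
      rw [Finset.mem_filter] at hl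
      have h6 := h.nz l j hl.2
      congr 1
      apply propext
      constructor
      · rintro ⟨-, -, h7⟩
        apply Units.ext
        rw [Units.val_one]
        apply mul_right_cancel₀ h6
        rw [← h7, one_mul]
      · intro h7
        refine ⟨hl.2, hl.2, ?_⟩
        rw [h7, Units.val_one, one_mul]
    rw [Finset.sum_congr rfl h3, Finset.sum_congr rfl h5, Finset.sum_const_zero, zero_add,
      Finset.sum_const, Finset.filter_ne', Finset.card_erase_of_mem (Finset.mem_univ _),
      Finset.card_univ]
    split_ifs <;> simp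
  · rw [if_neg h1]
    have h2 := h.cnt k j (fun h3 => h1 h3.symm) t t.ne_zero
    have h4 : ((t : K) = -1) ↔ t = -1 := by
      rw [← Units.val_one, ← Units.val_neg, Units.val_inj]
    simp only [h4] at h2
    rw [← h2, Finset.card_filter]
    apply Finset.sum_congr rfl
    intro l _
    congr 1
    apply propext
    rw [h.symm l k, h.symm l j]
    constructor
    · rintro ⟨h5, h6, h7⟩
      exact ⟨h6, h5, h7⟩
    · rintro ⟨h5, h6, h7⟩
      exact ⟨h6, h5, h7⟩

theorem corr {N : ι → ι → K} (h : Good N) (i : ι) (t : Kˣ) :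
    ∑ u : Kˣ, r N i u * r N i ((t * u : Kˣ) : K) =
      (Fintype.card ι - 1) * ((if t = -1 then 0 else 1) + if t = 1 then 1 else 0) := by
  have e1 : ∀ l, ∑ u : Kˣ, r N l u * r N l ((t * u : Kˣ) : K) =
      ∑ j, ∑ k, if (l ≠ j ∧ l ≠ k ∧ N l k = t * N l j) then 1 else 0 := by
    intro l
    have e2 : ∀ u : Kˣ, r N l u * r N l ((t * u : Kˣ) : K) =
        ∑ j, ∑ k, if (N l j = u ∧ N l k = (t * u : Kˣ)) then 1 else 0 := by
      intro u
      unfold r
      rw [Finset.card_filter, Finset.card_filter, Finset.sum_mul_sum]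
      apply Finset.sum_congr rfl
      intro j _
      apply Finset.sum_congr rfl
      intro k _
      rw [ite_and]
      split_ifs <;> rfl
    rw [Finset.sum_congr rfl (fun u _ => e2 u), Finset.sum_comm]
    apply Finset.sum_congr rfl
    intro j _
    rw [Finset.sum_comm]
    apply Finset.sum_congr rfl
    intro k _
    by_cases hj : l = j
    · subst hj
      rw [if_neg (fun h1 => h1.1 rfl)]
      apply Finset.sum_eq_zero
      intro u _
      rw [if_neg]
      rintro ⟨h1, -⟩
      rw [h.diag] at h1
      exact u.ne_zero h1.symm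
    · have h2 := h.nz l j hj
      rw [Finset.sum_eq_single (Units.mk0 (N l j) h2)]
      · congr 1
        apply propext
        rw [Units.val_mul, Units.val_mk0]
        constructor
        · rintro ⟨-, h3⟩
          refine ⟨hj, ?_, h3⟩
          intro h4
          subst h4
          rw [h.diag] at h3
          exact mul_ne_zero t.ne_zero h2 h3.symm
        · rintro ⟨-, -, h3⟩
          exact ⟨rfl, h3⟩
      · intro u _ hu
        rw [if_neg]
        rintro ⟨h3, -⟩
        apply hu
        apply Units.ext
        rw [Units.val_mk0, h3]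
      · intro h3
        exact absurd (Finset.mem_univ _) h3
  have e3 : ∑ l, ∑ u : Kˣ, r N l u * r N l ((t * u : Kˣ) : K) =
      Fintype.card ι * ((Fintype.card ι - 1) * ((if t = -1 then 0 else 1) + if t = 1 then 1 else 0)) := by
    rw [Finset.sum_congr rfl (fun l _ => e1 l), Finset.sum_comm]
    have e4 : ∀ j, ∑ l, ∑ k, (if (l ≠ j ∧ l ≠ k ∧ N l k = t * N l j) then 1 else 0) =
        (Fintype.card ι - 1) * ((if t = -1 then 0 else 1) + if t = 1 then 1 else 0) := by
      intro j
      rw [Finset.sum_comm, Finset.sum_congr rfl (fun k _ => triple h t j k)]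
      rw [← Finset.sum_filter_add_sum_filter_not univ (fun k => j = k)]
      have h3 : ∀ k ∈ univ.filter (fun k => j = k), (if j = k then (if t = 1 then Fintype.card ι - 1
          else 0) else (if t = -1 then 0 else 1)) = if t = 1 then Fintype.card ι - 1 else 0 := by
        intro k hk
        rw [Finset.mem_filter] at hk
        rw [if_pos hk.2]
      have h4 : ∀ k ∈ univ.filter (fun k => ¬ j = k), (if j = k then (if t = 1 then Fintype.card ι - 1
          else 0) else (if t = -1 then 0 else 1)) = if t = -1 then 0 else 1 := by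
        intro k hk
        rw [Finset.mem_filter] at hk
        rw [if_neg hk.2]
      rw [Finset.sum_congr rfl h3, Finset.sum_congr rfl h4, Finset.sum_const, Finset.sum_const,
        Finset.filter_ne, Finset.card_erase_of_mem (Finset.mem_univ _), Finset.card_univ,
        Finset.filter_eq, if_pos (Finset.mem_univ _), Finset.card_singleton]
      simp only [smul_eq_mul]
      split_ifs <;> ring
    rw [Finset.sum_congr rfl (fun j _ => e4 j), Finset.sum_const, Finset.card_univ, smul_eq_mul]
  have e5 : ∀ l ∈ (univ : Finset ι), ∑ u : Kˣ, r N l u * r N l ((t * u : Kˣ) : K) =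
      ∑ u : Kˣ, r N i u * r N i ((t * u : Kˣ) : K) := by
    intro l _
    apply Finset.sum_congr rfl
    intro u _
    rw [r_eq h l i u u.ne_zero, r_eq h l i _ (t * u).ne_zero]
  rw [Finset.sum_congr rfl e5, Finset.sum_const, Finset.card_univ, smul_eq_mul] at e3
  have hpos : 0 < Fintype.card ι := Fintype.card_pos_iff.2 ⟨i⟩
  exact Nat.eq_of_mul_eq_mul_left hpos e3

theorem sum_r {N : ι → ι → K} (h : Good N) (i : ι) :
    ∑ u : Kˣ, r N i u = Fintype.card ι - 1 := by
  unfold r
  simp_rw [Finset.card_filter]
  rw [Finset.sum_comm]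
  have e1 : ∀ j, (∑ u : Kˣ, if N i j = u then 1 else 0) = if ¬ j = i then 1 else 0 := by
    intro j
    by_cases hj : j = i
    · subst hj
      rw [if_neg (fun h1 => h1 rfl)]
      apply Finset.sum_eq_zero
      intro u _
      rw [if_neg]
      intro h1
      rw [h.diag] at h1
      exact u.ne_zero h1.symm
    · rw [if_pos hj]
      have h2 := h.nz i j (fun h3 => hj h3.symm)
      rw [Finset.sum_eq_single (Units.mk0 (N i j) h2)]
      · rw [Units.val_mk0, if_pos rfl]
      · intro u _ hu
        rw [if_neg]
        intro h3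
        apply hu
        apply Units.ext
        rw [Units.val_mk0, h3]
      · intro h3
        exact absurd (Finset.mem_univ _) h3
  rw [Finset.sum_congr rfl (fun j _ => e1 j), ← Finset.card_filter, Finset.filter_ne',
    Finset.card_erase_of_mem (Finset.mem_univ _), Finset.card_univ]

/-- no normalised matrix with `|ι| = |K| = q` for odd `q > 5` -/
theorem no_good {N : ι → ι → K} (h : Good N) (hc : Fintype.card ι = Fintype.card K)
    (h5 : 5 < Fintype.card K) (h2 : (1 : K) ≠ -1) : False := by
  have hne : Nonempty ι := Fintype.card_pos_iff.1 (by omega)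
  obtain ⟨i⟩ := hne
  obtain ⟨f, hf⟩ : ∃ f : Kˣ → ℤ, f = fun u : Kˣ => (r N i (u : K) : ℤ) - 1 := ⟨_, rfl⟩
  have h2' : (1 : Kˣ) ≠ -1 := by
    intro h3
    apply h2
    have := congrArg (fun x : Kˣ => (x : K)) h3
    simpa using this
  have hcu : Fintype.card Kˣ = Fintype.card K - 1 := Fintype.card_units K
  obtain ⟨m, hm⟩ : ∃ m : ℕ, m + 1 = Fintype.card K := ⟨Fintype.card K - 1, by omega⟩
  have hcu' : Fintype.card Kˣ = m := by omega
  have s0 : ∑ u : Kˣ, (r N i u : ℤ) = m := by
    have := sum_r h i
    rw [hc, ← hm, Nat.add_sub_cancel] at this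
    exact_mod_cast this
  have sC : ∀ t : Kˣ, ∑ u : Kˣ, (r N i u : ℤ) * (r N i ((t * u : Kˣ) : K) : ℤ) =
      m * ((if t = -1 then 0 else 1) + if t = 1 then 1 else 0) := by
    intro t
    have := corr h i t
    rw [hc, ← hm, Nat.add_sub_cancel] at this
    have h7 := congrArg (fun x : ℕ => (x : ℤ)) this
    push_cast at h7
    push_cast
    exact h7
  have sm : ∀ t : Kˣ, ∑ u : Kˣ, (r N i ((t * u : Kˣ) : K) : ℤ) = m := by
    intro t
    rw [← s0]
    exact Equiv.sum_comp (Equiv.mulLeft t) (fun u : Kˣ => (r N i (u : K) : ℤ))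
  have s1 := sC 1
  have s2 := sC (-1)
  rw [if_neg h2', if_pos rfl] at s1
  rw [if_pos rfl, if_neg h2'.symm] at s2
  simp only [one_mul] at s1
  have z1 : ∀ u : Kˣ, (r N i u : ℤ) * (r N i ((-1 * u : Kˣ) : K) : ℤ) = 0 := by
    have := (Finset.sum_eq_zero_iff_of_nonneg (fun u _ => by positivity)).1
      (s2.trans (by ring))
    intro u
    exact this u (Finset.mem_univ _)
  have z2 : ∀ u : Kˣ, ((r N i u : ℤ) + (r N i ((-1 * u : Kˣ) : K) : ℤ) - 2) ^ 2 = 0 := by
    have s3 : ∑ u : Kˣ, (r N i ((-1 * u : Kˣ) : K) : ℤ) * (r N i ((-1 * u : Kˣ) : K) : ℤ) =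
        m * (1 + 1) := by
      rw [← s1]
      exact Equiv.sum_comp (Equiv.mulLeft (-1 : Kˣ))
        (fun u : Kˣ => (r N i (u : K) : ℤ) * (r N i (u : K) : ℤ))
    have s4 : ∑ u : Kˣ, ((r N i u : ℤ) + (r N i ((-1 * u : Kˣ) : K) : ℤ) - 2) ^ 2 = 0 := by
      have e1 : ∀ u : Kˣ, ((r N i u : ℤ) + (r N i ((-1 * u : Kˣ) : K) : ℤ) - 2) ^ 2 =
          (r N i u : ℤ) * (r N i u : ℤ) + (r N i ((-1 * u : Kˣ) : K) : ℤ) *
          (r N i ((-1 * u : Kˣ) : K) : ℤ) + 2 * ((r N i u : ℤ) * (r N i ((-1 * u : Kˣ) : K) : ℤ)) -
          4 * (r N i u : ℤ) - 4 * (r N i ((-1 * u : Kˣ) : K) : ℤ) + 4 := by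
        intro u
        ring
      rw [Finset.sum_congr rfl (fun u _ => e1 u), Finset.sum_add_distrib, Finset.sum_sub_distrib,
        Finset.sum_sub_distrib, Finset.sum_add_distrib, Finset.sum_add_distrib, ← Finset.mul_sum,
        ← Finset.mul_sum, ← Finset.mul_sum, s1, s2, s3, s0, sm, Finset.sum_const, Finset.card_univ,
        hcu']
      simp only [nsmul_eq_mul]
      ring
    have := (Finset.sum_eq_zero_iff_of_nonneg (fun u _ => by positivity)).1 s4
    intro u
    exact this u (Finset.mem_univ _)
  have f1 : ∀ u : Kˣ, f u = 1 ∨ f u = -1 := by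
    intro u
    have h7 := z1 u
    have h8 : (r N i u : ℤ) + (r N i ((-1 * u : Kˣ) : K) : ℤ) - 2 = 0 := pow_eq_zero_iff
      (by norm_num) |>.1 (z2 u)
    rw [hf]
    dsimp only
    rcases mul_eq_zero.1 h7 with h9 | h9
    · right
      omega
    · left
      omega
  have f2 : ∀ u : Kˣ, f (-1 * u) = - f u := by
    intro u
    have h8 : (r N i u : ℤ) + (r N i ((-1 * u : Kˣ) : K) : ℤ) - 2 = 0 := pow_eq_zero_iff
      (by norm_num) |>.1 (z2 u)
    rw [hf]
    dsimp only
    omega
  have f3 : ∀ t : Kˣ, t ≠ 1 → t ≠ -1 → ∑ u : Kˣ, f u * f (t * u) = 0 := by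
    intro t h7 h8
    have e1 : ∀ u : Kˣ, f u * f (t * u) = (r N i u : ℤ) * (r N i ((t * u : Kˣ) : K) : ℤ) -
        (r N i u : ℤ) - (r N i ((t * u : Kˣ) : K) : ℤ) + 1 := by
      intro u
      rw [hf]
      ring
    rw [Finset.sum_congr rfl (fun u _ => e1 u), Finset.sum_add_distrib, Finset.sum_sub_distrib,
      Finset.sum_sub_distrib, sC, s0, sm, if_neg h8, if_neg h7, Finset.sum_const, Finset.card_univ,
      hcu']
    simp
  -- cyclic
  obtain ⟨w, hw⟩ := IsCyclic.exists_generator (α := Kˣ)
  have how : orderOf w = m := by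
    rw [orderOf_eq_card_of_forall_mem_zpowers hw, Nat.card_eq_fintype_card, hcu']
  have hsum : ∀ g : Kˣ → ℤ, ∑ u : Kˣ, g u = ∑ k ∈ range m, g (w ^ k) := by
    intro g
    rw [← IsCyclic.image_range_orderOf hw, how, Finset.sum_image]
    intro a ha b hb hab
    rw [← how] at ha hb
    exact pow_injOn_Iio_orderOf (by simpa using ha) (by simpa using hb) hab
  have hodd : ∃ n, m = n + n := by
    have e1 : (-1 : Kˣ) ^ m = 1 := by rw [← hcu']; exact pow_card_eq_one
    have e2 : Even m := by
      by_contra h7
      rw [Nat.not_even_iff_odd] at h7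
      rw [h7.neg_one_pow] at e1
      exact h2' e1.symm
    exact e2
  obtain ⟨n, hn⟩ := hodd
  have hwn : w ^ n = -1 := by
    have e1 : w ^ n * w ^ n = 1 := by
      rw [← pow_add, ← hn, ← how, pow_orderOf_eq_one]
    have e2 : w ^ n ≠ 1 := by
      apply pow_ne_one_of_lt_orderOf (by omega)
      omega
    have e3 : ((w ^ n : Kˣ) : K) * ((w ^ n : Kˣ) : K) = 1 := by
      rw [← Units.val_mul, e1, Units.val_one]
    rcases mul_self_eq_one_iff.1 e3 with e4 | e4
    · exact absurd (Units.ext e4) e2
    · apply Units.ext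
      rw [e4]
      simp
  have hk : ∀ k, 0 < k → k < n → w ^ k ≠ 1 ∧ w ^ k ≠ -1 := by
    intro k hk1 hk2
    constructor
    · apply pow_ne_one_of_lt_orderOf (by omega)
      omega
    · intro h7
      rw [← hwn] at h7
      have := pow_injOn_Iio_orderOf (x := w) (x₁ := k) (x₂ := n) (by simp only [Set.mem_Iio]; omega)
        (by simp only [Set.mem_Iio]; omega) h7
      omega
  apply no_seq n (fun k => f (w ^ k))
  · intro k
    exact f1 _
  · intro k
    rw [pow_add, hwn, mul_comm, f2]
  · have h7 := f3 w (by simpa using (hk 1 (by omega) (by omega)).1)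
      (by simpa using (hk 1 (by omega) (by omega)).2)
    rw [hsum, hn] at h7
    rw [← h7]
    apply Finset.sum_congr rfl
    intro k _
    rw [pow_succ']
  · have h7 := f3 (w ^ 2) (hk 2 (by omega) (by omega)).1 (hk 2 (by omega) (by omega)).2
    rw [hsum, hn] at h7
    rw [← h7]
    apply Finset.sum_congr rfl
    intro k _
    rw [pow_add, mul_comm (w ^ 2)]

end counting

/-! ## From all-or-nothing transforms to normalised matrices -/

section aont

variable {ι K : Type} [Fintype ι] [DecidableEq ι] [Field K] [Fintype K] [DecidableEq K]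

theorem prod_nonzero : ∏ x ∈ (univ : Finset K).erase 0, x = -1 := by
  have h1 := FiniteField.prod_univ_units_id_eq_neg_one (K := K)
  have h2 := congrArg (fun x : Kˣ => (x : K)) h1
  rw [Units.coe_prod, Units.val_neg, Units.val_one] at h2
  rw [← h2]
  symm
  apply Finset.prod_bij (fun (u : Kˣ) _ => (u : K))
  · intro u _
    rw [Finset.mem_erase]
    exact ⟨u.ne_zero, Finset.mem_univ _⟩
  · intro a _ b _ hab
    exact Units.ext hab
  · intro b hb
    rw [Finset.mem_erase] at hb
    exact ⟨Units.mk0 b hb.1, Finset.mem_univ _, rfl⟩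
  · intro u _
    rfl

theorem cnt_of (S : Finset ι) (φ : ι → K) (hinj : ∀ a ∈ S, ∀ b ∈ S, φ a = φ b → a = b)
    (hnz : ∀ a ∈ S, φ a ≠ 0) (hcard : S.card + 2 = Fintype.card K) (hprod : ∏ a ∈ S, φ a = 1)
    (t : K) (ht : t ≠ 0) : (S.filter fun j => φ j = t).card = if t = -1 then 0 else 1 := by
  have h1 : (S.image φ).card = S.card := by
    apply Finset.card_image_of_injOn
    intro a ha b hb hab
    exact hinj a ha b hb hab
  have h2 : S.image φ ⊆ (univ : Finset K).erase 0 := by
    intro x hx
    rw [Finset.mem_image] at hx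
    obtain ⟨a, ha, rfl⟩ := hx
    rw [Finset.mem_erase]
    exact ⟨hnz a ha, Finset.mem_univ _⟩
  have h3 : ((univ : Finset K).erase 0 \ S.image φ).card = 1 := by
    rw [Finset.card_sdiff_of_subset h2, h1, Finset.card_erase_of_mem (Finset.mem_univ _),
      Finset.card_univ]
    omega
  obtain ⟨m, hm⟩ := Finset.card_eq_one.1 h3
  have h4 : m = -1 := by
    rw [← prod_nonzero, ← Finset.prod_sdiff h2, hm, Finset.prod_singleton, Finset.prod_image, hprod,
      mul_one]
    intro a ha b hb hab
    exact hinj a ha b hb hab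
  by_cases h5 : t = -1
  · rw [if_pos h5, Finset.card_eq_zero, Finset.filter_eq_empty_iff]
    intro a ha hat
    have h6 : t ∈ (univ : Finset K).erase 0 \ S.image φ := by
      rw [hm, h5, h4]
      exact Finset.mem_singleton_self _
    rw [Finset.mem_sdiff, Finset.mem_image] at h6
    exact h6.2 ⟨a, ha, hat⟩
  · rw [if_neg h5, Finset.card_eq_one]
    have h6 : t ∈ S.image φ := by
      by_contra h7
      have h8 : t ∈ (univ : Finset K).erase 0 \ S.image φ := by
        rw [Finset.mem_sdiff, Finset.mem_erase]
        exact ⟨⟨ht, Finset.mem_univ _⟩, h7⟩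
      rw [hm, Finset.mem_singleton, h4] at h8
      exact h5 h8
    rw [Finset.mem_image] at h6
    obtain ⟨a, ha, hat⟩ := h6
    refine ⟨a, ?_⟩
    ext b
    rw [Finset.mem_filter, Finset.mem_singleton]
    constructor
    · rintro ⟨hb, hbt⟩
      exact hinj b hb a ha (hbt.trans hat.symm)
    · intro hb
      rw [hb]
      exact ⟨ha, hat⟩

/-- product of the off-diagonal entries of row `i` -/
def rp (M : ι → ι → K) (i : ι) : K := ∏ j ∈ univ.erase i, M i j

theorem miss (M : ι → ι → K) (hc : Fintype.card ι = Fintype.card K)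
    (hM : ∀ i k j l, i ≠ k → j ≠ l → M i j * M k l ≠ M i l * M k j) (i k : ι) (hik : i ≠ k)
    (hi : ∀ j, j ≠ i → M i j ≠ 0) (hk : ∀ j, j ≠ k → M k j ≠ 0) (hs : M i k = M k i)
    (t : K) (ht : t ≠ 0) :
    (univ.filter fun j => j ≠ i ∧ j ≠ k ∧ rp M i * M i j = t * (rp M k * M k j)).card =
      if t = -1 then 0 else 1 := by
  have hri : rp M i ≠ 0 := by
    unfold rp
    rw [Finset.prod_ne_zero_iff]
    intro j hj
    exact hi j (Finset.ne_of_mem_erase hj)
  have hrk : rp M k ≠ 0 := by
    unfold rp
    rw [Finset.prod_ne_zero_iff]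
    intro j hj
    exact hk j (Finset.ne_of_mem_erase hj)
  have hS : ∀ j, j ∈ (univ.erase i).erase k ↔ j ≠ i ∧ j ≠ k := by
    intro j
    rw [Finset.mem_erase, Finset.mem_erase]
    exact ⟨fun h => ⟨h.2.1, h.1⟩, fun h => ⟨h.2, h.1, Finset.mem_univ _⟩⟩
  have hcard : ((univ.erase i).erase k).card + 2 = Fintype.card K := by
    have h1 : k ∈ univ.erase i := Finset.mem_erase.2 ⟨fun h => hik h.symm, Finset.mem_univ _⟩
    have h2 := Finset.card_erase_add_one h1
    have h3 := Finset.card_erase_add_one (Finset.mem_univ i)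
    rw [Finset.card_univ] at h3
    omega
  have hprod : ∏ j ∈ (univ.erase i).erase k, (rp M i * M i j / (rp M k * M k j)) = 1 := by
    rw [Finset.prod_div_distrib, Finset.prod_mul_distrib, Finset.prod_mul_distrib,
      Finset.prod_const, Finset.prod_const]
    have h1 : k ∈ univ.erase i := Finset.mem_erase.2 ⟨fun h => hik h.symm, Finset.mem_univ _⟩
    have h2 : M i k * ∏ j ∈ (univ.erase i).erase k, M i j = rp M i :=
      Finset.mul_prod_erase _ _ h1
    have h3 : i ∈ univ.erase k := Finset.mem_erase.2 ⟨hik, Finset.mem_univ _⟩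
    have h4 : M k i * ∏ j ∈ (univ.erase k).erase i, M k j = rp M k :=
      Finset.mul_prod_erase _ _ h3
    rw [Finset.erase_right_comm] at h4
    obtain ⟨c, hcc⟩ : ∃ c, c = ((univ.erase i).erase k).card := ⟨_, rfl⟩
    rw [← hcc] at hcard ⊢
    have h5 : c + 1 = Fintype.card K - 1 := by omega
    have h6 : rp M i ^ (c + 1) = 1 := by rw [h5]; exact FiniteField.pow_card_sub_one_eq_one _ hri
    have h7 : rp M k ^ (c + 1) = 1 := by rw [h5]; exact FiniteField.pow_card_sub_one_eq_one _ hrk
    have h8 := hi k (fun h => hik h.symm)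
    have h9 := hk i hik
    have h10 : ∏ j ∈ (univ.erase i).erase k, M k j ≠ 0 := by
      intro h11
      rw [h11, mul_zero] at h4
      exact hrk h4.symm
    rw [div_eq_one_iff_eq (mul_ne_zero (pow_ne_zero _ hrk) h10)]
    apply mul_left_cancel₀ h8
    calc M i k * (rp M i ^ c * ∏ j ∈ (univ.erase i).erase k, M i j)
        = rp M i ^ c * (M i k * ∏ j ∈ (univ.erase i).erase k, M i j) := by ring
      _ = rp M i ^ (c + 1) := by rw [h2, pow_succ]
      _ = rp M k ^ (c + 1) := by rw [h6, h7]
      _ = rp M k ^ c * (M k i * ∏ j ∈ (univ.erase i).erase k, M k j) := by rw [h4, pow_succ]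
      _ = M i k * (rp M k ^ c * ∏ j ∈ (univ.erase i).erase k, M k j) := by rw [hs]; ring
  have h1 := cnt_of ((univ.erase i).erase k) (fun j => rp M i * M i j / (rp M k * M k j))
    (by
      intro a ha b hb hab
      rw [hS] at ha hb
      by_contra hne
      apply hM i k a b hik hne
      have h3 := hk a ha.2
      have h4 := hk b hb.2
      rw [div_eq_div_iff (mul_ne_zero hrk h3) (mul_ne_zero hrk h4)] at hab
      apply mul_left_cancel₀ (mul_ne_zero hri hrk)
      linear_combination hab)
    (by
      intro a ha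
      rw [hS] at ha
      exact div_ne_zero (mul_ne_zero hri (hi a ha.1)) (mul_ne_zero hrk (hk a ha.2)))
    hcard hprod t ht
  rw [← h1]
  congr 1
  ext j
  rw [Finset.mem_filter, Finset.mem_filter, hS]
  constructor
  · rintro ⟨-, h2, h3, h4⟩
    refine ⟨⟨h2, h3⟩, ?_⟩
    rw [div_eq_iff (mul_ne_zero hrk (hk j h3))]
    exact h4
  · rintro ⟨⟨h2, h3⟩, h4⟩
    rw [div_eq_iff (mul_ne_zero hrk (hk j h3))] at h4
    exact ⟨Finset.mem_univ _, h2, h3, h4⟩

/-- Zero diagonal except possibly at `L`, symmetric, all `2 × 2` minors nonzero: impossible. -/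
theorem no_aont (M : ι → ι → K) (L : ι) (hc : Fintype.card ι = Fintype.card K)
    (h5 : 5 < Fintype.card K) (h2 : (1 : K) ≠ -1)
    (hM : ∀ i k j l, i ≠ k → j ≠ l → M i j * M k l ≠ M i l * M k j)
    (hs : ∀ i j, M i j = M j i) (hd : ∀ i, i ≠ L → M i i = 0) : False := by
  have hex : ∀ a b : ι, ∃ c, c ≠ a ∧ c ≠ b := by
    intro a b
    by_contra hcon
    push Not at hcon
    have h1 : (univ : Finset ι) ⊆ {a, b} := by
      intro c _
      rw [Finset.mem_insert, Finset.mem_singleton]
      by_cases h : c = a
      · exact Or.inl h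
      · exact Or.inr (hcon c h)
    have h3 := (Finset.card_le_card h1).trans Finset.card_le_two
    rw [Finset.card_univ] at h3
    omega
  have hrow : ∀ i, i ≠ L → ∀ j, j ≠ i → M i j ≠ 0 := by
    intro i hi j hj h0
    obtain ⟨k, hk, -⟩ := hex i i
    apply hM i k i j (fun h => hk h.symm) (fun h => hj h.symm)
    rw [hd i hi, h0]
    ring
  have hrow' : ∀ i j, i ≠ j → M i j ≠ 0 := by
    intro i j hij
    by_cases h : i = L
    · rw [hs]
      exact hrow j (fun h3 => hij (h.trans h3.symm)) i hij
    · exact hrow i h j (fun h3 => hij h3.symm)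
  have hrp : ∀ i, rp M i ≠ 0 := by
    intro i
    unfold rp
    rw [Finset.prod_ne_zero_iff]
    intro j hj
    exact hrow' i j (fun h => Finset.ne_of_mem_erase hj h.symm)
  by_cases hL : M L L = 0
  · -- type `q`
    have hd' : ∀ i, M i i = 0 := by
      intro i
      by_cases h : i = L
      · rw [h, hL]
      · exact hd i h
    apply no_good (N := fun i j => rp M i * M i j * rp M j) ?_ hc h5 h2
    constructor
    · intro i
      rw [hd']
      ring
    · intro i j hij
      exact mul_ne_zero (mul_ne_zero (hrp i) (hrow' i j hij)) (hrp j)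
    · intro i j
      rw [hs i j]
      ring
    · intro i k hik t ht
      rw [← miss M hc hM i k hik (fun j hj => hrow' i j (fun h => hj h.symm))
        (fun j hj => hrow' k j (fun h => hj h.symm)) (hs i k) t ht]
      congr 1
      apply Finset.filter_congr
      intro j _
      constructor
      · rintro ⟨h6, h7, h8⟩
        refine ⟨h6, h7, ?_⟩
        apply mul_right_cancel₀ (hrp j)
        rw [h8]
        ring
      · rintro ⟨h6, h7, h8⟩
        refine ⟨h6, h7, ?_⟩
        rw [h8]
        ring
  · -- type `q - 1`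
    obtain ⟨P, hP⟩ : ∃ P : K, P = ∏ j, M L j := ⟨_, rfl⟩
    -- the ratios of row `i` and row `L` are all nonzero values
    have hcol : ∀ i, i ≠ L → rp M i * M i L = -P := by
      intro i hi
      have hnzL : ∀ j, M L j ≠ 0 := by
        intro j
        by_cases h : L = j
        · rw [← h]; exact hL
        · exact hrow' L j h
      have h1 : ((univ.erase i).image fun j => M i j / M L j) = (univ : Finset K).erase 0 := by
        apply Finset.eq_of_subset_of_card_le
        · intro x hx
          rw [Finset.mem_image] at hx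
          obtain ⟨a, ha, rfl⟩ := hx
          rw [Finset.mem_erase]
          exact ⟨div_ne_zero (hrow i hi a (Finset.ne_of_mem_erase ha)) (hnzL a),
            Finset.mem_univ _⟩
        · rw [Finset.card_image_of_injOn, Finset.card_erase_of_mem (Finset.mem_univ _),
            Finset.card_erase_of_mem (Finset.mem_univ _), Finset.card_univ, Finset.card_univ, hc]
          intro a _ b _ hab
          by_contra hne
          apply hM i L a b hi hne
          dsimp only at hab
          rw [div_eq_div_iff (hnzL a) (hnzL b)] at hab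
          exact hab
      have h3 : ∏ j ∈ univ.erase i, (M i j / M L j) = -1 := by
        rw [← prod_nonzero, ← h1, Finset.prod_image]
        intro a _ b _ hab
        by_contra hne
        apply hM i L a b hi hne
        dsimp only at hab
        rw [div_eq_div_iff (hnzL a) (hnzL b)] at hab
        exact hab
      rw [Finset.prod_div_distrib] at h3
      have h4 : M L i * ∏ j ∈ univ.erase i, M L j = P := by
        rw [hP]
        exact Finset.mul_prod_erase _ _ (Finset.mem_univ i)
      have h6 : ∏ j ∈ univ.erase i, M L j ≠ 0 := by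
        rw [Finset.prod_ne_zero_iff]
        intro j _
        exact hnzL j
      rw [div_eq_iff h6] at h3
      have h7 : rp M i = ∏ j ∈ univ.erase i, M i j := rfl
      rw [h7, h3, ← h4, hs L i]
      ring
    have hdist : ∀ i k, i ≠ L → k ≠ L → i ≠ k → ∀ j, j ≠ i → j ≠ k → j ≠ L →
        rp M i * M i j ≠ rp M k * M k j ∧ rp M i * M i j ≠ -(rp M k * M k j) := by
      intro i k hi hk hik j hji hjk hjL
      have hm := miss M hc hM i k hik (fun j hj => hrow' i j (fun h => hj h.symm))
        (fun j hj => hrow' k j (fun h => hj h.symm)) (hs i k)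
      constructor
      · intro h7
        have h8 := hm 1 one_ne_zero
        rw [if_neg h2, Finset.card_eq_one] at h8
        obtain ⟨a, ha⟩ := h8
        have h9 : j = a := by
          rw [← Finset.mem_singleton, ← ha, Finset.mem_filter]
          exact ⟨Finset.mem_univ _, hji, hjk, by rw [h7, one_mul]⟩
        have h10 : L = a := by
          rw [← Finset.mem_singleton, ← ha, Finset.mem_filter]
          exact ⟨Finset.mem_univ _, fun h => hi h.symm, fun h => hk h.symm, by
            rw [hcol i hi, hcol k hk, one_mul]⟩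
        exact hjL (h9.trans h10.symm)
      · intro h7
        have h8 := hm (-1) (neg_ne_zero.2 one_ne_zero)
        rw [if_pos rfl, Finset.card_eq_zero, Finset.filter_eq_empty_iff] at h8
        exact h8 (Finset.mem_univ j) ⟨hji, hjk, by rw [h7]; ring⟩
    obtain ⟨j, hj, -⟩ := hex L L
    obtain ⟨S, hS⟩ : ∃ S : Finset ι, S = (univ.erase j).erase L := ⟨_, rfl⟩
    have hmem : ∀ i, i ∈ S ↔ i ≠ L ∧ i ≠ j := by
      intro i
      rw [hS, Finset.mem_erase, Finset.mem_erase]
      exact ⟨fun h => ⟨h.1, h.2.1⟩, fun h => ⟨h.1, h.2, Finset.mem_univ _⟩⟩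
    have hcS : S.card + 2 = Fintype.card K := by
      have h1 : L ∈ univ.erase j := Finset.mem_erase.2 ⟨fun h => hj h.symm, Finset.mem_univ _⟩
      have h3 := Finset.card_erase_add_one h1
      have h4 := Finset.card_erase_add_one (Finset.mem_univ j)
      rw [Finset.card_univ] at h4
      rw [hS]
      omega
    have i1 : (S.image fun i => rp M i * M i j).card = S.card := by
      apply Finset.card_image_of_injOn
      intro a ha b hb hab
      have ha' := (hmem a).1 ha
      have hb' := (hmem b).1 hb
      by_contra hne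
      exact (hdist a b ha'.1 hb'.1 hne j (fun h => ha'.2 h.symm) (fun h => hb'.2 h.symm) hj).1 hab
    have i2 : (S.image fun i => -(rp M i * M i j)).card = S.card := by
      apply Finset.card_image_of_injOn
      intro a ha b hb hab
      have ha' := (hmem a).1 ha
      have hb' := (hmem b).1 hb
      by_contra hne
      exact (hdist a b ha'.1 hb'.1 hne j (fun h => ha'.2 h.symm) (fun h => hb'.2 h.symm) hj).1
        (neg_injective hab)
    have i3 : Disjoint (S.image fun i => rp M i * M i j) (S.image fun i => -(rp M i * M i j)) := by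
      rw [Finset.disjoint_left]
      intro x hx hx'
      rw [Finset.mem_image] at hx hx'
      obtain ⟨a, ha, rfl⟩ := hx
      obtain ⟨b, hb, hab⟩ := hx'
      have ha' := (hmem a).1 ha
      have hb' := (hmem b).1 hb
      by_cases hne : a = b
      · subst hne
        have h6 : rp M a * M a j ≠ 0 := mul_ne_zero (hrp a) (hrow' a j ha'.2)
        apply h2
        apply mul_left_cancel₀ h6
        rw [mul_neg, mul_one]
        exact hab.symm
      · exact (hdist a b ha'.1 hb'.1 hne j (fun h => ha'.2 h.symm) (fun h => hb'.2 h.symm) hj).2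
          hab.symm
    have i4 : (S.image fun i => rp M i * M i j) ∪ (S.image fun i => -(rp M i * M i j)) ⊆
        (univ : Finset K).erase 0 := by
      intro x hx
      rw [Finset.mem_union, Finset.mem_image, Finset.mem_image] at hx
      rw [Finset.mem_erase]
      refine ⟨?_, Finset.mem_univ _⟩
      rcases hx with ⟨a, ha, rfl⟩ | ⟨a, ha, rfl⟩
      · exact mul_ne_zero (hrp a) (hrow' a j ((hmem a).1 ha).2)
      · exact neg_ne_zero.2 (mul_ne_zero (hrp a) (hrow' a j ((hmem a).1 ha).2))
    have i5 := Finset.card_le_card i4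
    rw [Finset.card_union_of_disjoint i3, i1, i2, Finset.card_erase_of_mem (Finset.mem_univ _),
      Finset.card_univ] at i5
    omega

end aont

/-! ## The result -/

/-- `M` is a linear `(t, s, q)`-all-or-nothing transform, `q` the order of the field `K`: `M` is
invertible, and so is every `t × t` submatrix (`t` different rows and `t` different columns). -/
def IsLinearAONT {K : Type} [Field K] {s : ℕ} (t : ℕ) (M : Matrix (Fin s) (Fin s) K) : Prop :=
  IsUnit M.det ∧ ∀ a b : Fin t → Fin s, Function.Injective a → Function.Injective b →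
    IsUnit (M.submatrix a b).det

/-- standard form: `m₁₁ = 0`, `m₁ⱼ = mⱼ₁ = 1` for `j ≥ 2`, and `mᵢᵢ = 0` for `2 ≤ i ≤ s - 1`
(indices in `Fin s` start at `0`); the last diagonal entry is arbitrary -/
def InStandardForm {K : Type} [Field K] {s : ℕ} (M : Matrix (Fin s) (Fin s) K) : Prop :=
  (∀ i : Fin s, (i : ℕ) = 0 → M i i = 0) ∧
  (∀ i j : Fin s, (i : ℕ) = 0 → 1 ≤ (j : ℕ) → M i j = 1 ∧ M j i = 1) ∧
  ∀ i : Fin s, 1 ≤ (i : ℕ) → (i : ℕ) + 1 < s → M i i = 0

/-- For every prime `p > 5` there is no symmetric linear `(2, p, p)`-AONT in standard form; more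
generally, over a finite field of odd order `q > 5`, no symmetric `q × q` matrix whose diagonal
entries are `0`, except possibly one, has all its `2 × 2` submatrices invertible. -/
theorem result :
    (∀ (p : ℕ) [Fact p.Prime], 5 < p → ¬ ∃ M : Matrix (Fin p) (Fin p) (ZMod p),
      IsLinearAONT 2 M ∧ InStandardForm M ∧ M.transpose = M) ∧
    ∀ (K : Type) [Field K] [Fintype K], Odd (Fintype.card K) → 5 < Fintype.card K →
      ¬ ∃ (M : Matrix (Fin (Fintype.card K)) (Fin (Fintype.card K)) K)
          (L : Fin (Fintype.card K)), M.transpose = M ∧ (∀ i, i ≠ L → M i i = 0) ∧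
        ∀ i k j l, i ≠ k → j ≠ l → M i j * M k l ≠ M i l * M k j := by
  have key : ∀ (K : Type) [Field K] [Fintype K], Odd (Fintype.card K) → 5 < Fintype.card K →
      ∀ s : ℕ, s = Fintype.card K → ∀ (M : Matrix (Fin s) (Fin s) K) (L : Fin s),
        M.transpose = M → (∀ i, i ≠ L → M i i = 0) →
        (∀ i k j l, i ≠ k → j ≠ l → M i j * M k l ≠ M i l * M k j) → False := by
    intro K _ _ hodd h5 s hs M L hT hd hM
    classical
    refine no_aont (ι := Fin s) (K := K) (fun i j => M i j) L (by rw [Fintype.card_fin, hs]) h5 ?_ hM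
      (fun i j => by
        have := congrFun (congrFun hT j) i
        rw [Matrix.transpose_apply] at this
        exact this) hd
    intro h1
    have h2 : (2 : K) = 0 := by linear_combination h1
    have h3 : ringChar K = 2 := by
      have h4 : ringChar K ∣ 2 := (ringChar.spec K 2).1 (by exact_mod_cast h2)
      rcases (Nat.dvd_prime Nat.prime_two).1 h4 with h6 | h6
      · have := CharP.ringChar_ne_one (R := K)
        exact absurd h6 this
      · exact h6
    have h7 := FiniteField.even_card_of_char_two h3
    rw [Nat.odd_iff] at hodd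
    omega
  constructor
  · intro p _ hp
    rintro ⟨M, ⟨-, hM⟩, ⟨hd0, -, hd⟩, hT⟩
    have hcard : Fintype.card (ZMod p) = p := ZMod.card p
    have hodd : Odd p := (Fact.out : p.Prime).odd_of_ne_two (by omega)
    refine key (ZMod p) (by rw [hcard]; exact hodd) (by rw [hcard]; exact hp) p hcard.symm M
      ⟨p - 1, by omega⟩ hT ?_ ?_
    · intro i hi
      by_cases h0 : (i : ℕ) = 0
      · exact hd0 i h0
      · apply hd i (by omega)
        have h1 : (i : ℕ) ≠ p - 1 := by
          intro h2
          apply hi
          apply Fin.ext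
          exact h2
        have := i.isLt
        omega
    · intro i k j l hik hjl heq
      have h1 := hM ![i, k] ![j, l] (by
        intro a b hab
        fin_cases a <;> fin_cases b <;> simp_all) (by
        intro a b hab
        fin_cases a <;> fin_cases b <;> simp_all)
      rw [Matrix.det_fin_two] at h1
      simp only [Matrix.submatrix_apply, Matrix.cons_val_zero, Matrix.cons_val_one] at h1
      rw [heq, sub_self] at h1
      exact not_isUnit_zero h1
  · intro K _ _ hodd h5
    rintro ⟨M, L, hT, hd, hM⟩
    exact key K hodd h5 _ rfl M L hT hd hM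

end Pool.Agent.Results.MP_e1f2d0_co.NoSymmetric
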